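import Pool.Agent.helper36.LT.GL3Small

set_option autoImplicit false

/-!
# Groups of matrices of size at most three over graded rings satisfy the Farrell-Jones conjecture

`FJClosed P` says that the class `P` of groups has inheritance properties which are known for the
class of Farrell-Jones groups.

Theorem. Let `A` be a commutative ring graded by the natural numbers, for example a polynomial ring
`A₀[X₁, X₂, …]`, and `G` a subgroup of `GL_n(A)`, `n ≤ 3`. If the image of `G` in `GL_n(A₀)` is in
the class, then `G` is in the class.

Outline of the proof. As for `n = 2` (helper28) one reduces to a subgroup `G` of `GL₃(D[T])`, `D` a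
domain, which has an image at `T = 0` in the class. The group `GL₃(D[T])` acts on the building of
`GL₃` over the field `k((1/T))`, `k` the field of fractions of `D`. This is a simply connected
chamber system of large type (the rank two residues are projective planes), and the entries of the
elements of the stabiliser of a vertex have bounded degree. So the homomorphism from `G` to
`GL₃(D[T]/T^m)` is injective on a given stabiliser for large `m`; its image is the extension of the
image of `G` at `T = 0` by a nilpotent group, so it is in the class. It remains to apply a general
theorem: if `G` acts on a simply connected chamber system of large type and for each stabiliser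
there is a homomorphism from `G` to a group in the class which is injective on this stabiliser, then
`G` is in the class. See the file `LargeTypeArtin` for an outline of the proof of the general
theorem.
-/

namespace Pool.Agent.Results.MP_490288_al.GL3GradedRings

open Pool.Agent.helper34 Pool.Agent.helper36.LT Matrix
open Pool.Agent.helper28.GF (Cls)

/-- A class of (discrete) groups with known properties of the class of Farrell-Jones groups: it
contains the solvable groups and the groups acting properly and cocompactly on 2-dimensional CAT(0)
simplicial complexes, it is closed under subgroups, finite direct products, free products,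
finite-index overgroups, and colimits over directed systems with arbitrary structure maps, and it
has the extension property. -/
structure FJClosed (P : ∀ (G : Type) [Group G], Prop) : Prop where
  /-- solvable groups -/
  solvable : ∀ (G : Type) [Group G], Group.IsSolvable G → P G
  /-- groups acting properly and cocompactly on 2-dimensional CAT(0) simplicial complexes: simply
  connected, piecewise Euclidean, with the link condition -/
  catZero : ∀ (G V : Type) [Group G] [MulAction G V] (X : FJ2.Complex2 V) (len : V → V → ℝ),
    FJ2.SimplyConnected X → FJ2.NPC X len → FJ2.ActsProperly G X len → FJ2.Cocompact G X → P G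
  /-- subgroups -/
  subgroup : ∀ (G : Type) [Group G], P G → ∀ H : Subgroup G, P H
  /-- direct products -/
  prod : ∀ (G H : Type) [Group G] [Group H], P G → P H → P (G × H)
  /-- free products -/
  coprod : ∀ (G H : Type) [Group G] [Group H], P G → P H → P (Monoid.Coprod G H)
  /-- overgroups of finite index -/
  overgroup : ∀ (G : Type) [Group G] (H : Subgroup G), H.FiniteIndex → P H → P G
  /-- directed colimits: `L` with the maps `φ i` is a colimit of the directed system `(G, f)` when
  the `φ i` are compatible with the `f i j`, jointly surjective, and an element of `G i` dies in
  `L` only if it dies in some `G j`. -/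
  colim : ∀ (ι : Type) [Preorder ι] [Nonempty ι] [IsDirectedOrder ι]
    (G : ι → Type) [∀ i, Group (G i)] (f : ∀ i j, i ≤ j → G i →* G j)
    (L : Type) [Group L] (φ : ∀ i, G i →* L),
    (∀ i x, f i i le_rfl x = x) →
    (∀ i j k (hij : i ≤ j) (hjk : j ≤ k) x, f j k hjk (f i j hij x) = f i k (hij.trans hjk) x) →
    (∀ i j (h : i ≤ j) x, φ j (f i j h x) = φ i x) →
    (∀ y : L, ∃ i x, φ i x = y) →
    (∀ i x, φ i x = 1 → ∃ j, ∃ h : i ≤ j, f i j h x = 1) →
    (∀ i, P (G i)) → P L
  /-- the extension property: if `Q` and the preimages of all virtually cyclic subgroups of `Q`
  are in the class, then the source of the homomorphism is in the class -/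
  extension : ∀ (G Q : Type) [Group G] [Group Q] (f : G →* Q), P Q →
    (∀ C : Subgroup Q, (∃ Z : Subgroup C, Z.FiniteIndex ∧ IsCyclic Z) → P (C.comap f)) → P G

theorem FJClosed.closed {P : ∀ (G : Type) [Group G], Prop} (h : FJClosed P) : Closed P where
  cat := h.catZero
  colim := h.colim
  comm := fun G _ => h.solvable G (Group.isSolvable_of_comm (fun a b => mul_comm a b))
  subgroup := h.subgroup
  overgroup := h.overgroup
  extension := h.extension

theorem FJClosed.cls {P : ∀ (G : Type) [Group G], Prop} (h : FJClosed P) : Cls P where
  finite := fun G _ hG => by
    refine h.overgroup G ⊥ ⟨?_⟩ (h.solvable _ ?_)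
    · exact Subgroup.index_ne_zero_of_finite
    · exact Group.isSolvable_of_comm (fun a b => Subsingleton.elim _ _)
  int := h.solvable _ (Group.isSolvable_of_comm (fun a b => mul_comm a b))
  subgroup := h.subgroup
  prod := h.prod
  coprod := h.coprod
  overgroup := h.overgroup
  colim := h.colim
  solvable := h.solvable
  extension := h.extension

/-- Let `P` be a class of groups with the properties `FJClosed` of the class of Farrell-Jones
groups. Let `A` be a commutative ring with a grading `𝒜` by the natural numbers and `G` a subgroup
of `GL_n(A)`, `n ≤ 3`. If the image of `G` under the projection of `A` to its homogeneous component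
of degree `0` is in the class, then `G` is in the class. -/
theorem result (P : ∀ (G : Type) [Group G], Prop) (hP : FJClosed P) (A σ : Type) [CommRing A]
    [SetLike σ A] [AddSubmonoidClass σ A] (𝒜 : ℕ → σ) [GradedRing 𝒜] (n : ℕ) (hn : n ≤ 3)
    (G : Subgroup (GL (Fin n) A))
    (hG : P (G.map (Matrix.GeneralLinearGroup.map (GradedRing.projZeroRingHom 𝒜)))) :
    P G :=
  graded_small hP.closed hP.cls 𝒜 n hn G hG

end Pool.Agent.Results.MP_490288_al.GL3GradedRings
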