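import Pool.Agent.helper16.FJ.Tame

set_option autoImplicit false

/-!
# Groups generated by automata of polynomial activity are Farrell-Jones groups

A class of groups which has the inheritance properties known for the class of Farrell-Jones groups
contains every group generated by finite-state automorphisms of polynomial activity (Sidki) of the
rooted tree of words over a finite alphabet, and also the groups generated by automorphisms of
bounded type or by tame automorphisms, which need not be finite-state.

Outline of the proof. Fix a letter `o`. For a group `A` let `F(A)` be the free product of the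
permutational wreath product of `A` with `Sym(X)`, of the group `V(A)` of finite-range sequences in
that wreath product which fix `o` and have trivial section at `o`, and of the free group on the
rays different from `o^∞`. Put `E_0 = 1` and `E_(l+1) = F(E_l)`. Every `E_l` is in the class, acts
on the tree, and every tame automorphism comes from some `E_l`. The action has a contracting wreath
recursion, and its kernel on `E_l` is the union of an increasing sequence of normal subgroups
`K_l[n]`, where `K_(l+1)[n]` consists of the elements whose level-`n` sections are in the normal
closure of `K_l[n]` and of the kernel of `F(E_l) → F(E_l / K_l[n])`. Coherent choices of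
decompositions `E_(l+1) → Wr^s(Z)` show that between `K_l[n]` and some `K_l[n']` there is a normal
subgroup with quotient in the class, so that the image of `E_l` in the automorphism group of the
tree is a directed colimit of groups of the class.
-/

namespace Pool.Agent.Results.MP_490288_al.PolyAutomata

open Pool.Agent.helper16.FJ

/-- A class of (discrete) groups with inheritance properties listed in the problem file for the
class of Farrell-Jones groups: it contains the finite groups and the infinite cyclic group
(which are hyperbolic), and it is closed under subgroups, finite direct products, free products,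
finite-index overgroups, and colimits over directed systems with arbitrary structure maps. -/
structure FJClosed (P : ∀ (G : Type) [Group G], Prop) : Prop where
  /-- finite groups -/
  finite : ∀ (G : Type) [Group G], Finite G → P G
  /-- the infinite cyclic group -/
  int : P (Multiplicative ℤ)
  /-- subgroups -/
  subgroup : ∀ (G : Type) [Group G], P G → ∀ H : Subgroup G, P H
  /-- direct products -/
  prod : ∀ (G H : Type) [Group G] [Group H], P G → P H → P (G × H)
  /-- free products -/
  coprod : ∀ (G H : Type) [Group G] [Group H], P G → P H → P (Monoid.Coprod G H)
  /-- overgroups of finite index -/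
  overgroup : ∀ (G : Type) [Group G] (H : Subgroup G), H.FiniteIndex → P H → P G
  /-- directed colimits: `L` with the maps `φ i` is a colimit of the directed system `(G, f)` when
  the `φ i` are compatible with the `f i j`, jointly surjective, and an element of `G i` dies in
  `L` only if it dies in some `G j`. -/
  colim : ∀ (ι : Type) [Preorder ι] [Nonempty ι] [IsDirectedOrder ι]
    (G : ι → Type) [∀ i, Group (G i)] (f : ∀ i j, i ≤ j → G i →* G j)
    (L : Type) [Group L] (φ : ∀ i, G i →* L),
    (∀ i x, f i i le_rfl x = x) →
    (∀ i j k (hij : i ≤ j) (hjk : j ≤ k) x, f j k hjk (f i j hij x) = f i k (hij.trans hjk) x) →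
    (∀ i j (h : i ≤ j) x, φ j (f i j h x) = φ i x) →
    (∀ y : L, ∃ i x, φ i x = y) →
    (∀ i x, φ i x = 1 → ∃ j, ∃ h : i ≤ j, f i j h x = 1) →
    (∀ i, P (G i)) → P L

variable {X : Type}

/-- automorphisms of the rooted tree `X^*` of words (lists) over `X`: bijections which preserve
the length and the relation of being an initial segment -/
def IsTreeAut (g : Equiv.Perm (List X)) : Prop :=
  (∀ v, (g v).length = v.length) ∧ ∀ v w, g v <+: g (v ++ w)

/-- the section of `g` at the vertex `v`: `g (v ++ w) = g v ++ sect g v w` -/
def sect (g : List X → List X) (v : List X) : List X → List X :=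
  fun w => (g (v ++ w)).drop v.length

/-- finite-state: finitely many sections -/
def FiniteState (g : List X → List X) : Prop := (Set.range (sect g)).Finite

/-- polynomial activity: the number of words of length `n` at which the section is non-trivial is
bounded by a polynomial in `n` -/
def PolyActivity (g : List X → List X) : Prop :=
  ∃ K d : ℕ, ∀ n : ℕ, {v : List X | v.length = n ∧ sect g v ≠ id}.ncard ≤ K * (n + 1) ^ d

/-- the initial segment of length `n` of a ray -/
def seg (ξ : ℕ → X) (n : ℕ) : List X := (List.range n).map ξ

/-- bounded type: there are finitely many rays and a number `C` such that every vertex with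
non-trivial label is at distance at most `C` below a vertex of one of the rays -/
def BoundedType (g : List X → List X) : Prop :=
  ∃ (C : ℕ) (R : Set (ℕ → X)), R.Finite ∧ ∀ v x, g (v ++ [x]) ≠ g v ++ [x] →
    ∃ ξ ∈ R, ∃ n w, w.length ≤ C ∧ v = seg ξ n ++ w

/-- tame maps: the smallest class which contains the identity, contains `g` when all sections at
the first level are in the class, and contains `g` when for some ray the sections at the vertices
adjacent to the ray are members of a finite subset of the class -/
inductive Tame : (List X → List X) → Prop
  | one : Tame id
  | glue (g : List X → List X) : (∀ x, Tame (sect g [x])) → Tame g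
  | directed (g : List X → List X) (ξ : ℕ → X) (T : Set (List X → List X)) : T.Finite →
      (∀ t ∈ T, Tame t) → (∀ n y, y ≠ ξ n → sect g (seg ξ n ++ [y]) ∈ T) → Tame g

theorem FJClosed.inherit {P : ∀ (G : Type) [Group G], Prop} (h : FJClosed P) : Inherit P where
  finite := h.finite
  int := h.int
  subgroup := h.subgroup
  prod := h.prod
  coprod := h.coprod
  overgroup := h.overgroup
  colim := h.colim

theorem seg_eq (ξ : ℕ → X) (n : ℕ) : seg ξ n = pre ξ n := by
  induction n generalizing ξ with
  | zero => rfl
  | succ n ih =>
    rw [pre, ← ih, seg, List.range_succ_eq_map, List.map_cons, List.map_map]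
    rfl

theorem act_inj {p q : PA X} (h : p.act = q.act) : p = q := by
  apply PA.ext'
  intro v
  ext x
  have h1 := congrFun h (v ++ [x])
  rw [PA.act_append_singleton, PA.act_append_singleton, congrFun h v] at h1
  have := List.append_cancel_left h1
  simpa using this

theorem act_eq_id {p : PA X} : p.act = id ↔ p = 1 := by
  constructor
  · intro h
    apply act_inj
    rw [h]
    funext v
    simp
  · rintro rfl
    funext v
    simp

theorem sect_act (p : PA X) (v : List X) : sect p.act v = (p.secw v).act := by
  funext w
  rw [sect, PA.act_append, List.drop_append_of_le_length (by simp)]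
  rw [List.drop_of_length_le (by simp), List.nil_append]

theorem exists_portrait [Finite X] {g : Equiv.Perm (List X)} (hg : IsTreeAut g) :
    ∃ p : PA X, p.act = g := by
  obtain ⟨hlen, hpre⟩ := hg
  have h1 : ∀ v x, ∃ y, g (v ++ [x]) = g v ++ [y] := by
    intro v x
    obtain ⟨t, ht⟩ := hpre v [x]
    have hl := congrArg List.length ht
    simp only [List.length_append, hlen, List.length_singleton] at hl
    obtain ⟨y, rfl⟩ := List.length_eq_one_iff.1 (by omega : t.length = 1)
    exact ⟨y, ht.symm⟩
  choose lab hlab using h1
  have hinj : ∀ v, Function.Injective (lab v) := by
    intro v x y hxy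
    have h2 : g (v ++ [x]) = g (v ++ [y]) := by rw [hlab, hlab, hxy]
    have h3 := List.append_cancel_left (g.injective h2)
    simpa using h3
  let p : PA X := fun v => Equiv.ofBijective (lab v) ((hinj v).bijective_of_finite)
  refine ⟨p, ?_⟩
  funext v
  induction v using List.reverseRecOn with
  | nil =>
    have h2 : (g []).length = 0 := hlen []
    rw [List.length_eq_zero_iff.1 h2]
    rfl
  | append_singleton v x ih =>
    rw [PA.act_append_singleton, ih, hlab]
    rfl

theorem tame_portrait {f : List X → List X} (hf : Tame f) : ∀ p : PA X, f = p.act → TameP p := by
  induction hf with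
  | one =>
    intro p hp
    rw [act_eq_id.1 hp.symm]
    exact TameP.one
  | glue g _ ih =>
    rintro p rfl
    refine TameP.glue p fun x => ih x _ ?_
    rw [sect_act]
    rfl
  | directed g ξ T hT _ h ih =>
    rintro p rfl
    refine TameP.dir p ξ (PA.act ⁻¹' T) (hT.preimage fun _ _ _ _ h => act_inj h) ?_ ?_
    · intro t ht
      exact ih t.act ht t rfl
    · intro n y hy
      have := h n y hy
      rw [sect_act, seg_eq] at this
      exact this

theorem poly_portrait [Finite X] (p : PA X) (h1 : FiniteState p.act) (h2 : PolyActivity p.act) :
    TameP p := by
  obtain ⟨K, d, h2⟩ := h2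
  refine TameP.of_poly p ?_ K d ?_
  · refine (Set.Finite.preimage (f := PA.act) (fun _ _ _ _ h => act_inj h) h1).subset ?_
    rintro _ ⟨v, rfl⟩
    exact ⟨v, sect_act p v⟩
  · intro n
    have : {v : List X | v.length = n ∧ p.secw v ≠ 1} =
        {v : List X | v.length = n ∧ sect p.act v ≠ id} := by
      ext v
      simp only [Set.mem_ofPred_eq, sect_act, ne_eq, act_eq_id]
    rw [this]
    exact h2 n

theorem bounded_portrait [Finite X] (p : PA X) (h : BoundedType p.act) : TameP p := by
  obtain ⟨C, R, hR, h⟩ := h
  refine TameP.of_rays C R hR p ?_
  intro v hv
  have : ∃ x, p v x ≠ x := by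
    by_contra hc
    push Not at hc
    exact hv (Equiv.ext hc)
  obtain ⟨x, hx⟩ := this
  obtain ⟨ξ, hξ, n, w, hw, he⟩ := h v x (by
    rw [PA.act_append_singleton]
    intro hc
    apply hx
    simpa using List.append_cancel_left hc)
  exact ⟨ξ, hξ, n, w, hw, by rw [he, seg_eq]⟩

/-- portraits act as permutations of the set of words -/
def actHom (X : Type) : PA X →* Equiv.Perm (List X) where
  toFun p := ⟨p.act, p.actInv, p.actInv_act, p.act_actInv⟩
  map_one' := by
    ext1 v
    exact PA.act_one v
  map_mul' p q := by
    ext1 v
    exact PA.act_mul p q v

/-- Let `P` be a class of groups with the inheritance properties of the class of Farrell-Jones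
groups. Then for every finite alphabet `X`, every group generated by a set of automorphisms of the
tree `X^*`, each of which is finite-state of polynomial activity, or of bounded type, or tame, is
in the class `P`. -/
theorem result (P : ∀ (G : Type) [Group G], Prop) (hP : FJClosed P) (X : Type) [Finite X]
    (S : Set (Equiv.Perm (List X)))
    (hS : ∀ g ∈ S, IsTreeAut g ∧ ((FiniteState g ∧ PolyActivity g) ∨ BoundedType g ∨ Tame g)) :
    P (Subgroup.closure S) := by
  classical
  by_cases hX : Nonempty X
  · obtain ⟨o⟩ := hX
    have h1 : P (GU o) := hP.inherit.GU o
    have hinj : Function.Injective (actHom X) := by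
      intro p q hpq
      apply act_inj
      exact congrArg (fun e : Equiv.Perm (List X) => (e : List X → List X)) hpq
    have h2 : P ((GU o).map (actHom X)) :=
      hP.inherit.of_mulEquiv ((GU o).equivMapOfInjective (actHom X) hinj) h1
    refine hP.inherit.of_le ?_ h2
    rw [Subgroup.closure_le]
    intro g hg
    obtain ⟨h3, h4⟩ := hS g hg
    obtain ⟨p, hp⟩ := exists_portrait h3
    refine ⟨p, ?_, ?_⟩
    · apply TameP.mem_GU
      rw [← hp] at h4
      rcases h4 with ⟨h5, h6⟩ | h5 | h5
      · exact poly_portrait p h5 h6
      · exact bounded_portrait p h5
      · exact tame_portrait h5 p rfl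
    · ext1 v
      exact congrFun hp v
  · have hsub : Subsingleton (List X) := by
      refine ⟨fun v w => ?_⟩
      have hnil : ∀ v : List X, v = [] := by
        intro v
        cases v with
        | nil => rfl
        | cons x _ => exact absurd ⟨x⟩ hX
      rw [hnil v, hnil w]
    exact hP.finite _ inferInstance

end Pool.Agent.Results.MP_490288_al.PolyAutomata
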