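import Pool.Agent.helper55.LR.Final
import Pool.Agent.helper55.LR.Cpr
import Pool.Agent.helper55.LR.Cxg
import Pool.Agent.helper50.LT.GLdir

set_option autoImplicit false

/-!
# Locally reducible Artin groups satisfy the Farrell-Jones conjecture

`FJClosed P` says that the class `P` of groups has inheritance properties which are known for the
class of Farrell-Jones groups. Let `M` be a Coxeter matrix (with a set `S` of generators of arbitrary
cardinality). The theorem reduces the question whether the Artin group of `M` is in `P` to finite
sets `T` of generators without the label `∞`, and for these sets to blocks: it is enough that every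
such `T` has a partition into blocks (the fibres of a function `b`) such that the Artin groups of the
blocks are in `P`, and
* two different blocks commute (all labels between them are `2`), or no label between them is `2`;
* a label `3` between different blocks occurs only if both blocks have one element;
* three generators in three different blocks are locally reducible: two of the labels are `2` or
  `1/m_rs + 1/m_st + 1/m_rt ≤ 1`.
Consequences:
* if every three generators with finite labels are locally reducible (the Artin group is locally
  reducible, i.e. every irreducible standard parabolic subgroup of finite type has at most two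
  generators) then the Artin group is in `P` (blocks with one element). This contains the
  two-dimensional Artin groups and the even Artin groups; the dimension is arbitrary.
* if the Artin groups of all finite sets of generators without the label `∞` are in `P` then the
  Artin group is in `P`.
* arbitrary blocks whose Artin groups are in `P` and whose mutual labels are at least `4` or `∞`, or
  all equal to `2`.

Outline of the proof.
1. TRANSFER. Suppose that the Artin group `A` of a finite set of generators acts on a simply connected
non-positively curved 2-complex such that the stabiliser of every simplex is contained in a conjugate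
of a standard parabolic subgroup which is in `P`. Then `A` is in `P`. One uses the extension property
for the homomorphism from `A` to the Coxeter group `W`, which is linear over a number field: it is
enough to treat the preimages `A_w` of cyclic subgroups `⟨w⟩` of `W` (up to finite index). For every
standard parabolic subgroup `A_X` there is a cocycle of `A` with values in `A_X` on the cosets of the
parabolic subgroup `W_X` of `W` (a finite state machine, after van der Lek), which is the identity on
`A_X` at the trivial coset. One has to find a homomorphism from `A_w` to a group in `P` which is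
injective on the elements of a conjugate of `A_X` which map to `1` in `W`. The orbit of the coset
under `w` is infinite in general; the parabolic closure `W_Z` of the reflections which lie in
infinitely many of the parabolic subgroups attached to the orbit lies in all of them (after the
passage to a power of `w`, by a 3-adic argument about reflections), so that the germ at infinity of
the cocycle has values in the smaller group `A_Z`, where it is compatible with `w`, and the
difference of the cocycle and its germ has finite support. This gives a homomorphism to a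
permutational product of groups in `P` by a cyclic group, which is in `P` by a theorem about wreath
products.
2. ANGLES. A polygon theorem for the 2-complexes: the sum of the angles of a closed edge path with
`N` vertices is at most `(N - 2) π`.
3. GIRTH LEMMA. Let `T` have no label `∞` and a block structure as above, let `I`, `J` be two blocks
and `m` the minimum of the labels between them. An alternating product `a_1 b_1 … a_n b_n` of elements
`a_i` of `A_(T-I)` and `b_i` of `A_(T-J)`, all outside `A_(T-I-J)`, is non-trivial for `n < m`. The
proof is by induction: if there is a third block `K` which does not commute with both of them, then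
the development of the triangle of the groups `A_(T-I)`, `A_(T-J)`, `A_(T-K)` is simply connected and,
by induction, non-positively curved for a suitable choice of the angles, and the claim follows from
the polygon theorem. Otherwise one reduces to `T = I ∪ J`, and uses a similar complex, or the
geometry of the dihedral Artin groups.
4. If there are three blocks such that `I, J` and `J, K` do not commute, then `A_T` acts on the
development of the triangle of groups, and it is in `P` by 1 and induction. Otherwise it embeds in a
product of groups of the blocks and of unions of two blocks whose labels are at least `4`; these act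
on a hybrid complex of cosets of dihedral subgroups and of the groups of the two blocks.
5. If `m_xy = ∞` then the group is an amalgamated product of `A_(S-x)` and `A_(S-y)`, and acts on a
tree with parabolic stabilisers, so it is in `P` by 1 and induction. Infinite sets `S` are treated by
a colimit.
-/

namespace Pool.Agent.Results.MP_490288_al.ReducibleArtin

open Pool.Agent.helper34 Matrix
open Pool.Agent.helper34.FJ2 (Complex2 SimplyConnected NPC ActsProperly Cocompact)

/-- A class of (discrete) groups with known properties of the class of Farrell-Jones groups: it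
contains the abelian groups, the arithmetic groups `GL_n(ℤ[1/N])` and the groups acting properly
and cocompactly on 2-dimensional CAT(0) simplicial complexes, it is closed under subgroups,
overgroups of finite index, direct products of two groups and colimits of directed systems with
arbitrary structure maps, and it has the extension property. -/
structure FJClosed (P : ∀ (G : Type) [Group G], Prop) : Prop where
  /-- abelian groups -/
  abelian : ∀ (G : Type) [CommGroup G], P G
  /-- the `S`-arithmetic groups `GL_n(ℤ[1/N])` -/
  arithmetic : ∀ n N : ℕ, N ≠ 0 → P (GL (Fin n) (Localization.Away (N : ℤ)))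
  /-- groups acting properly and cocompactly on 2-dimensional CAT(0) simplicial complexes: simply
  connected, piecewise Euclidean, with the link condition -/
  catZero : ∀ (G V : Type) [Group G] [MulAction G V] (X : Complex2 V) (len : V → V → ℝ),
    SimplyConnected X → NPC X len → ActsProperly G X len → Cocompact G X → P G
  /-- subgroups -/
  subgroup : ∀ (G : Type) [Group G], P G → ∀ H : Subgroup G, P H
  /-- overgroups of finite index -/
  overgroup : ∀ (G : Type) [Group G] (H : Subgroup G), H.FiniteIndex → P H → P G
  /-- direct products -/
  product : ∀ (G H : Type) [Group G] [Group H], P G → P H → P (G × H)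
  /-- directed colimits: `L` with the maps `φ i` is a colimit of the directed system `(G, f)` when
  the `φ i` are compatible with the `f i j`, jointly surjective, and an element of `G i` dies in
  `L` only if it dies in some `G j`. -/
  colim : ∀ (ι : Type) [Preorder ι] [Nonempty ι] [IsDirectedOrder ι]
    (G : ι → Type) [∀ i, Group (G i)] (f : ∀ i j, i ≤ j → G i →* G j)
    (L : Type) [Group L] (φ : ∀ i, G i →* L),
    (∀ i x, f i i le_rfl x = x) →
    (∀ i j k (hij : i ≤ j) (hjk : j ≤ k) x, f j k hjk (f i j hij x) = f i k (hij.trans hjk) x) →
    (∀ i j (h : i ≤ j) x, φ j (f i j h x) = φ i x) →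
    (∀ y : L, ∃ i x, φ i x = y) →
    (∀ i x, φ i x = 1 → ∃ j, ∃ h : i ≤ j, f i j h x = 1) →
    (∀ i, P (G i)) → P L
  /-- the extension property: if `Q` and the preimages of all virtually cyclic subgroups of `Q`
  are in the class, then the source of the homomorphism is in the class -/
  extension : ∀ (G Q : Type) [Group G] [Group Q] (f : G →* Q), P Q →
    (∀ C : Subgroup Q, (∃ Z : Subgroup C, Z.FiniteIndex ∧ IsCyclic Z) → P (C.comap f)) → P G

/-- the alternating product `a b a b …` with `n` factors -/
def alternating {G : Type} [Group G] (a b : G) : ℕ → G
  | 0 => 1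
  | n + 1 => a * alternating b a n

/-- The Artin group of a Coxeter matrix `M`: the generators are the elements of `S`, and the
relations say that the alternating products `s t s …` and `t s t …` with `M s t` factors are equal
(no relation if `M s t = 0`, which stands for `∞`). -/
def ArtinGroup {S : Type} (M : CoxeterMatrix S) : Type :=
  PresentedGroup {x : FreeGroup S | ∃ s t : S,
    x = alternating (FreeGroup.of s) (FreeGroup.of t) (M s t) *
      (alternating (FreeGroup.of t) (FreeGroup.of s) (M s t))⁻¹}

instance {S : Type} (M : CoxeterMatrix S) : Group (ArtinGroup M) :=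
  inferInstanceAs (Group (PresentedGroup _))

/-- the Coxeter matrix of a set `T` of generators -/
def restrict {S : Type} (M : CoxeterMatrix S) (T : Set S) : CoxeterMatrix T where
  M := M.M.submatrix (fun s => s.1) (fun s => s.1)
  isSymm := M.isSymm.submatrix _
  diagonal _ := M.diagonal _
  off_diagonal _ _ h := M.off_diagonal _ _ (fun h' => h (Subtype.ext h'))

/-- three generators are locally reducible: two of the three labels are `2`, or
`1/m_rs + 1/m_st + 1/m_rt ≤ 1` -/
def Reducible {S : Type} (M : CoxeterMatrix S) (r s t : S) : Prop :=
  (M r s = 2 ∧ M s t = 2) ∨ (M r s = 2 ∧ M r t = 2) ∨ (M s t = 2 ∧ M r t = 2) ∨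
    (1 : ℚ) / (M r s : ℚ) + 1 / (M s t : ℚ) + 1 / (M r t : ℚ) ≤ 1

/-- A partition of a set `T` of generators (without the label `∞`) into blocks, the fibres of `b`. -/
structure BlockStructure {S ι : Type} (M : CoxeterMatrix S) (T : Set S) (b : S → ι) : Prop where
  /-- if a label between two different blocks is `2` then all labels between them are `2` -/
  commute : ∀ s ∈ T, ∀ s' ∈ T, ∀ t ∈ T, b s = b s' → b s ≠ b t → M s t = 2 → M s' t = 2
  /-- if a block has two elements `s`, `s'` then its labels with other blocks are `2` or at
  least `4` -/
  four : ∀ s ∈ T, ∀ s' ∈ T, ∀ t ∈ T, s ≠ s' → b s = b s' → b s ≠ b t → M s t = 2 ∨ 4 ≤ M s t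
  /-- three generators in three different blocks are locally reducible -/
  reducible : ∀ r ∈ T, ∀ s ∈ T, ∀ t ∈ T, b r ≠ b s → b s ≠ b t → b r ≠ b t → Reducible M r s t

/-- locally reducible Artin groups: three different generators with finite labels are locally
reducible -/
def LocallyReducible {S : Type} (M : CoxeterMatrix S) : Prop :=
  ∀ r s t : S, r ≠ s → s ≠ t → r ≠ t → M r s ≠ 0 → M s t ≠ 0 → M r t ≠ 0 → Reducible M r s t

theorem alt_eq {G : Type} [Group G] (a b : G) (n : ℕ) :
    alternating a b n = helper36.LT.alt a b n := by
  induction n generalizing a b with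
  | zero => rfl
  | succ n ih =>
    show a * alternating b a n = a * helper36.LT.alt b a n
    rw [ih]

theorem closedLT {P : ∀ (G : Type) [Group G], Prop} (hP : FJClosed P) : helper36.LT.Closed P where
  cat := hP.catZero
  colim := hP.colim
  comm := hP.abelian
  subgroup := hP.subgroup
  overgroup := hP.overgroup
  extension := hP.extension

theorem closed {P : ∀ (G : Type) [Group G], Prop} (hP : FJClosed P) : FJ3.Closed P where
  cat := hP.catZero
  colim := hP.colim
  sub := fun G _ H h => hP.subgroup G h H
  finIndex := fun G _ H hH h => hP.overgroup G H ⟨hH⟩ h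
  prod := hP.product
  ext := by
    intro G Q _ _ ψ h hQ
    refine hP.extension G Q ψ hQ ?_
    rintro C ⟨Z, hZ, hc⟩
    obtain ⟨x, hx⟩ := hc.exists_generator
    refine h C ⟨((x : Z) : C), (x : C).2, ?_⟩
    have h1 : (Subgroup.zpowers (((x : Z) : C) : Q)).subgroupOf C = Z := by
      ext y
      rw [Subgroup.mem_subgroupOf]
      constructor
      · rintro ⟨j, hj⟩
        have h2 : y = ((x ^ j : Z) : C) := Subtype.ext (by simpa using hj.symm)
        rw [h2]
        exact (x ^ j).2
      · intro hy
        obtain ⟨j, hj⟩ := hx ⟨y, hy⟩
        refine ⟨j, ?_⟩
        have h2 := congrArg (fun z : Z => ((z : C) : Q)) hj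
        simpa using h2
    change ((Subgroup.zpowers (((x : Z) : C) : Q)).subgroupOf C).index ≠ 0
    rw [h1]
    exact hZ.index_ne_zero

theorem artin_iff {P : ∀ (G : Type) [Group G], Prop} {S : Type} (M : CoxeterMatrix S) :
    P (ArtinGroup M) ↔ P (helper36.LT.Artin M) := by
  have h5 : {x : FreeGroup S | ∃ s t : S,
      x = alternating (FreeGroup.of s) (FreeGroup.of t) (M s t) *
        (alternating (FreeGroup.of t) (FreeGroup.of s) (M s t))⁻¹} = helper36.LT.artinRels M := by
    ext x
    constructor
    · rintro ⟨s, t, rfl⟩
      exact ⟨(s, t), by rw [alt_eq, alt_eq]⟩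
    · rintro ⟨⟨s, t⟩, rfl⟩
      exact ⟨s, t, by rw [alt_eq, alt_eq]⟩
  have h6 : ∀ (R R' : Set (FreeGroup S)), R = R' →
      (P (PresentedGroup R) ↔ P (PresentedGroup R')) := by
    rintro R R' rfl
    exact Iff.rfl
  exact h6 _ _ h5

theorem cls {P : ∀ (G : Type) [Group G], Prop} (hP : FJClosed P) : helper55.LR.Cls P where
  cl := closed hP
  inh :=
    { finite := by
        intro G _ hG
        let inst : CommGroup (⊥ : Subgroup G) :=
          { (inferInstance : Group (⊥ : Subgroup G)) with
            mul_comm := fun a b => Subsingleton.elim _ _ }
        have h1 : P (⊥ : Subgroup G) := @hP.abelian _ inst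
        exact hP.overgroup G ⊥ inferInstance h1
      int := hP.abelian _
      subgroup := hP.subgroup
      prod := hP.product
      coprod := helper55.LR.coprod_P (closed hP)
      overgroup := hP.overgroup
      colim := hP.colim }
  ext := hP.extension
  cox := helper55.LR.cox_P (closed hP)
    (fun n K => helper50.LT.gl_numberField_of_arith (closedLT hP) hP.arithmetic n K)
  gl := fun n => helper50.LT.gl_numberField_of_arith (closedLT hP) hP.arithmetic (Fin n) ℚ

open helper36.LT (Artin gen)
open helper50.LT (lift lift_gen gen_rel artin_hom_ext)
open helper46.FJ3 (restr inc inc_gen)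

/-- passage from a set of generators to a finite subset -/
theorem restrict_finset {P : ∀ (G : Type) [Group G], Prop} (hP : FJClosed P) {S : Type}
    (M : CoxeterMatrix S) (U : Set S) (F : Finset S) (hF : (F : Set S) ⊆ U)
    (h : P (ArtinGroup (restrict M U))) : P (Artin (restr M F)) := by
  have h' : P (Artin (restrict M U)) := (artin_iff (P := P) _).1 h
  let f : Artin (restr M F) →* Artin (restrict M U) :=
    lift _ (fun s => gen (restrict M U) ⟨s.1, hF s.2⟩)
      (fun s t => gen_rel (restrict M U) ⟨s.1, hF s.2⟩ ⟨t.1, hF t.2⟩)
  have hf : ∀ s : F, f (gen (restr M F) s) = gen (restrict M U) ⟨s.1, hF s.2⟩ :=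
    fun s => lift_gen _ _ _ _
  let k : Artin (restrict M U) →* Artin M :=
    lift _ (fun s => gen M s.1) (fun s t => gen_rel M s.1 t.1)
  have hk : ∀ s, k (gen (restrict M U) s) = gen M s.1 := fun s => lift_gen _ _ _ _
  have hkf : k.comp f = inc M F := by
    apply artin_hom_ext
    rintro ⟨s, hs⟩
    rw [MonoidHom.comp_apply, hf, hk, inc_gen]
  refine (closed hP).inj f ?_ h'
  rw [injective_iff_map_eq_one]
  intro x hx
  have h1 := DFunLike.congr_fun hkf x
  rw [MonoidHom.comp_apply, hx, map_one] at h1
  exact (injective_iff_map_eq_one _).1 (helper55.EV.inc_inj' M F) x h1.symm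

/-- Let `P` be a class of groups with the properties `FJClosed` of the class of Farrell-Jones
groups. If every finite set `T` of generators without the label `∞` has a block structure such that
the Artin groups of the blocks are in `P`, then the Artin group of `M` is in `P`. -/
theorem result (P : ∀ (G : Type) [Group G], Prop) (hP : FJClosed P) (S : Type)
    (M : CoxeterMatrix S)
    (h : ∀ T : Finset S, (∀ s ∈ T, ∀ t ∈ T, M s t ≠ 0) →
      ∃ (ι : Type) (b : S → ι), BlockStructure M T b ∧
        ∀ i : ι, P (ArtinGroup (restrict M {s | s ∈ T ∧ b s = i}))) :
    P (ArtinGroup M) := by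
  refine (artin_iff (P := P) M).2 (helper55.LR.lrb_P (cls hP) S M ?_)
  intro T hT
  obtain ⟨ι, b, hb, hX⟩ := h T (fun s hs t ht => hT (⟨s, hs⟩ : T) (⟨t, ht⟩ : T))
  refine ⟨ι, b, ⟨?_, ?_, ?_⟩, ?_⟩
  · rintro ⟨s, hs⟩ ⟨s', hs'⟩ ⟨t, ht⟩
    exact hb.commute s hs s' hs' t ht
  · rintro ⟨s, hs⟩ ⟨s', hs'⟩ ⟨t, ht⟩ hne
    exact hb.four s hs s' hs' t ht (fun e => hne (Subtype.ext e))
  · rintro ⟨r, hr⟩ ⟨s, hs⟩ ⟨t, ht⟩
    exact hb.reducible r hr s hs t ht
  · intro F hFT hF
    by_cases hF0 : ∃ s, s ∈ F
    · obtain ⟨s0, hs0⟩ := hF0
      exact restrict_finset hP M {s | s ∈ T ∧ b s = b s0} F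
        (fun s hs => ⟨hFT hs, hF s hs s0 hs0⟩) (hX (b s0))
    · refine helper55.EV.two_gen (closed hP) (cls hP).gl _ ?_
      rintro ⟨s, hs⟩
      exact (hF0 ⟨s, hs⟩).elim

/-- Special case: locally reducible Artin groups. -/
theorem locally_reducible (P : ∀ (G : Type) [Group G], Prop) (hP : FJClosed P) (S : Type)
    (M : CoxeterMatrix S) (hM : LocallyReducible M) : P (ArtinGroup M) := by
  classical
  refine result P hP S M fun T hT => ⟨S, id, ⟨?_, ?_, ?_⟩, ?_⟩
  · rintro s _ s' _ t _ rfl _ h2
    exact h2
  · intro s _ s' _ t _ h1 h2
    exact absurd h2 h1
  · intro r hr s hs t ht h1 h2 h3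
    exact hM r s t h1 h2 h3 (hT r hr s hs) (hT s hs t ht) (hT r hr t ht)
  · intro i
    refine (artin_iff (P := P) _).2 ?_
    have hfin : Finite ({s | s ∈ T ∧ id s = i} : Set S) :=
      (T.finite_toSet.subset fun s hs => hs.1).to_subtype
    refine helper55.EV.two_gen (closed hP) (cls hP).gl _ ?_
    rintro ⟨r, hr⟩ ⟨s, hs⟩ t h1
    exact absurd (Subtype.ext (hr.2.trans hs.2.symm)) h1

/-- Special case: the reduction to sets of generators without the label `∞`. -/
theorem infinity_free (P : ∀ (G : Type) [Group G], Prop) (hP : FJClosed P) (S : Type)
    (M : CoxeterMatrix S)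
    (h : ∀ T : Finset S, (∀ s ∈ T, ∀ t ∈ T, M s t ≠ 0) →
      LocallyReducible (restrict M T) ∨ P (ArtinGroup (restrict M T))) : P (ArtinGroup M) := by
  refine result P hP S M fun T hT => ⟨Unit, fun _ => (), ⟨?_, ?_, ?_⟩, ?_⟩
  · intro s _ s' _ t _ _ h1
    exact absurd rfl h1
  · intro s _ s' _ t _ _ _ h1
    exact absurd rfl h1
  · intro r _ s _ t _ h1
    exact absurd rfl h1
  · rintro ⟨⟩
    have e : {s | s ∈ T ∧ () = ()} = (T : Set S) := by
      ext s
      exact ⟨fun h => h.1, fun h => ⟨h, rfl⟩⟩
    rw [e]
    rcases h T hT with h1 | h1
    · exact locally_reducible P hP _ _ h1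
    · exact h1

/-- Special case: arbitrary blocks whose labels with other blocks are at least `4` or `∞`, or
all `2`. -/
theorem blocks (P : ∀ (G : Type) [Group G], Prop) (hP : FJClosed P) (S ι : Type)
    (M : CoxeterMatrix S) (b : S → ι)
    (hb : ∀ i j : ι, i ≠ j → (∀ s t, b s = i → b t = j → M s t = 2) ∨
      (∀ s t, b s = i → b t = j → M s t = 0 ∨ 4 ≤ M s t))
    (h : ∀ i : ι, P (ArtinGroup (restrict M {s | b s = i}))) : P (ArtinGroup M) := by
  classical
  refine result P hP S M fun T hT => ⟨ι, b, ⟨?_, ?_, ?_⟩, ?_⟩
  · intro s hs s' hs' t ht h1 h2 h3
    rcases hb (b s) (b t) h2 with h4 | h4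
    · exact h4 s' t h1.symm rfl
    · rcases h4 s t rfl rfl with h5 | h5
      · omega
      · omega
  · intro s hs s' hs' t ht _ h1 h2
    rcases hb (b s) (b t) h2 with h4 | h4
    · exact Or.inl (h4 s t rfl rfl)
    · exact Or.inr ((h4 s t rfl rfl).resolve_left (hT s hs t ht))
  · intro r hr s hs t ht h1 h2 h3
    have key : ∀ x ∈ T, ∀ y ∈ T, b x ≠ b y → M x y = 2 ∨ 4 ≤ M x y := by
      intro x hx y hy hxy
      rcases hb (b x) (b y) hxy with h4 | h4
      · exact Or.inl (h4 x y rfl rfl)
      · exact Or.inr ((h4 x y rfl rfl).resolve_left (hT x hx y hy))
    have q2 : ∀ n : ℕ, n = 2 → (1 : ℚ) / (n : ℚ) = 1 / 2 := by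
      rintro n rfl
      norm_num
    have q4 : ∀ n : ℕ, 4 ≤ n → (1 : ℚ) / (n : ℚ) ≤ 1 / 4 := by
      intro n hn
      have h5 : (4 : ℚ) ≤ n := by exact_mod_cast hn
      exact one_div_le_one_div_of_le (by norm_num) h5
    unfold Reducible
    rcases key r hr s hs h1 with a1 | a1 <;> rcases key s hs t ht h2 with a2 | a2 <;>
      rcases key r hr t ht h3 with a3 | a3
    · exact Or.inl ⟨a1, a2⟩
    · exact Or.inl ⟨a1, a2⟩
    · exact Or.inr (Or.inl ⟨a1, a3⟩)
    · right; right; right
      linarith [q2 _ a1, q4 _ a2, q4 _ a3]
    · exact Or.inr (Or.inr (Or.inl ⟨a2, a3⟩))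
    · right; right; right
      linarith [q4 _ a1, q2 _ a2, q4 _ a3]
    · right; right; right
      linarith [q4 _ a1, q4 _ a2, q2 _ a3]
    · right; right; right
      linarith [q4 _ a1, q4 _ a2, q4 _ a3]
  · intro i
    have e : {s | s ∈ T ∧ b s = i} = ((T.filter fun s => b s = i : Finset S) : Set S) := by
      ext s
      rw [Finset.mem_coe, Finset.mem_filter]
      exact Iff.rfl
    rw [e]
    refine (artin_iff (P := P) _).2 ?_
    exact restrict_finset hP M {s | b s = i} (T.filter fun s => b s = i)
      (fun s hs => (Finset.mem_filter.1 hs).2) (h i)

end Pool.Agent.Results.MP_490288_al.ReducibleArtin
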