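import Pool.Agent.helper66.FJT.Colim

set_option autoImplicit false

/-!
# Topological full groups of minimal homeomorphisms are Farrell-Jones groups

A class of groups which has the inheritance properties known for the class of Farrell-Jones groups
contains the topological full group of every minimal homeomorphism of a totally disconnected
compact Hausdorff space, and more generally of every homeomorphism of such a space which has
exactly one minimal closed invariant set, if that set is infinite.

Outline of the proof. Let `x₀` be a point of the minimal set. For a clopen neighbourhood `B` of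
`x₀` the orbits are cut into finite towers at the points of `B`. Let `S` be the group of the
elements of the full group which preserve every tower; it is locally finite. A line is a clopen set
meeting every tower once; `S` permutes the lines. Let `G(B)` be the semidirect product of `S` with
the right-angled Artin group on the set of all lines, where two lines commute when they are
disjoint. The generator of a line `A` acts on `X` by moving every point of `A` to the point of `A`
in the next tower, which gives a homomorphism from `G(B)` to the full group. For `B' ⊆ B` there is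
a connecting homomorphism `G(B) → G(B')`, and the full group is the colimit of the groups `G(B)`:
over a small `B'` every line of `B` becomes a translate of `B'` near the cuts, these translates are
disjoint, and the products of commuting transports are detected by their exponents.
-/

namespace Pool.Agent.Results.MP_490288_al.TopologicalFullGroups

/-- The graph product of the groups `G v` over the simple graph `Γ`: the free product of the `G v`
modulo the relations saying that `G v` and `G w` commute when `v` and `w` are adjacent. -/
abbrev GraphProduct {V : Type} (Γ : SimpleGraph V) (G : V → Type) [∀ v, Group (G v)] : Type :=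
  Monoid.CoprodI G ⧸ Subgroup.normalClosure {x : Monoid.CoprodI G |
    ∃ v w, Γ.Adj v w ∧ ∃ (a : G v) (b : G w),
      x = Monoid.CoprodI.of a * Monoid.CoprodI.of b * (Monoid.CoprodI.of a)⁻¹ *
        (Monoid.CoprodI.of b)⁻¹}

/-- A class of (discrete) groups with inheritance properties listed in the problem file for the
class of Farrell-Jones groups: it contains the infinite cyclic group, and it is closed under
finite-index overgroups, graph products over finite graphs, and colimits over directed systems
with arbitrary structure maps. -/
structure FJClosed (P : ∀ (G : Type) [Group G], Prop) : Prop where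
  /-- the infinite cyclic group -/
  int : P (Multiplicative ℤ)
  /-- overgroups of finite index -/
  overgroup : ∀ (G : Type) [Group G] (H : Subgroup G), H.FiniteIndex → P H → P G
  /-- graph products over finite graphs -/
  graphProduct : ∀ (V : Type) [Finite V] (Γ : SimpleGraph V) (G : V → Type) [∀ v, Group (G v)],
    (∀ v, P (G v)) → P (GraphProduct Γ G)
  /-- directed colimits: `L` with the maps `φ i` is a colimit of the directed system `(G, f)` when
  the `φ i` are compatible with the `f i j`, jointly surjective, and an element of `G i` dies in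
  `L` only if it dies in some `G j`. -/
  colim : ∀ (ι : Type) [Preorder ι] [Nonempty ι] [IsDirectedOrder ι]
    (G : ι → Type) [∀ i, Group (G i)] (f : ∀ i j, i ≤ j → G i →* G j)
    (L : Type) [Group L] (φ : ∀ i, G i →* L),
    (∀ i x, f i i le_rfl x = x) →
    (∀ i j k (hij : i ≤ j) (hjk : j ≤ k) x, f j k hjk (f i j hij x) = f i k (hij.trans hjk) x) →
    (∀ i j (h : i ≤ j) x, φ j (f i j h x) = φ i x) →
    (∀ y : L, ∃ i x, φ i x = y) →
    (∀ i x, φ i x = 1 → ∃ j, ∃ h : i ≤ j, f i j h x = 1) →
    (∀ i, P (G i)) → P L

variable {X : Type} [TopologicalSpace X]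

/-- the topological full group of the homeomorphism `T`: the homeomorphisms of the form
`x ↦ T ^ (c x) x` for a locally constant (equivalently, continuous) function `c : X → ℤ` -/
def fullGroup (T : X ≃ₜ X) : Subgroup (X ≃ₜ X) where
  carrier := {g | ∃ c : X → ℤ, IsLocallyConstant c ∧ ∀ x, g x = (T ^ c x) x}
  one_mem' := ⟨fun _ => 0, IsLocallyConstant.const 0, fun x => by simp⟩
  mul_mem' := by
    rintro g h ⟨c, hc, hgc⟩ ⟨d, hd, hhd⟩
    refine ⟨fun x => c (h x) + d x, (hc.comp_continuous h.continuous).add hd, fun x => ?_⟩
    rw [Homeomorph.mul_apply, hgc, zpow_add, Homeomorph.mul_apply, ← hhd x]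
  inv_mem' := by
    rintro g ⟨c, hc, hgc⟩
    refine ⟨fun x => -c (g⁻¹ x), (hc.comp_continuous (g⁻¹).continuous).neg, fun x => ?_⟩
    have h1 := hgc (g⁻¹ x)
    rw [← Homeomorph.mul_apply, mul_inv_cancel, Homeomorph.one_apply] at h1
    have h2 : (T ^ (-c (g⁻¹ x))) x = (T ^ (-c (g⁻¹ x))) ((T ^ (c (g⁻¹ x))) (g⁻¹ x)) := by
      rw [← h1]
    rw [h2, ← Homeomorph.mul_apply, ← zpow_add]
    simp

/-- `T` is minimal: the only closed subsets `K` with `T '' K = K` are `∅` and the whole space -/
def IsMinimalHomeo (T : X ≃ₜ X) : Prop :=
  ∀ K : Set X, IsClosed K → T '' K = K → K = ∅ ∨ K = Set.univ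

/-- `x` lies in every non-empty closed set `K` with `T '' K = K`; so the closure of the orbit of
`x` is the only minimal closed invariant set -/
def InUniqueMinimalSet (T : X ≃ₜ X) (x : X) : Prop :=
  ∀ K : Set X, IsClosed K → K.Nonempty → T '' K = K → x ∈ K

open Pool.Agent.helper66.FJT in
theorem FJClosed.closed {P : ∀ (G : Type) [Group G], Prop} (h : FJClosed P) : Closed P where
  int := h.int
  overgroup := h.overgroup
  graphProduct := h.graphProduct
  colim := h.colim

open Pool.Agent.helper66.FJT in
theorem loc_of_mem {T : X ≃ₜ X} {g : X ≃ₜ X} (hg : g ∈ fullGroup T) : Loc T g := by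
  obtain ⟨c, hc, hgc⟩ := hg
  intro x
  refine ⟨c x, ?_⟩
  filter_upwards [hc.eventually_eq x] with y hy
  rw [hgc y, hy]

open Pool.Agent.helper66.FJT in
/-- the full group as a group of permutations -/
noncomputable def fullGroupEquiv {T : X ≃ₜ X} (haper : ∀ n : ℤ, n ≠ 0 → ∀ x : X, (T ^ n) x ≠ x) :
    FG T ≃* fullGroup T where
  toFun g := ⟨⟨g.1, g.2.1.continuous, g.2.2.continuous⟩, by
    choose c hc using g.2.1
    refine ⟨c, ?_, fun x => (hc x).self_of_nhds⟩
    rw [IsLocallyConstant.iff_eventually_eq]
    intro x
    filter_upwards [hc x] with y hy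
    by_contra hne
    have h1 : g.1 y = (T ^ c y) y := (hc y).self_of_nhds
    rw [h1] at hy
    apply haper (c y - c x) (by omega) y
    rw [sub_eq_neg_add, pw_add, hy, pw_neg_cancel]⟩
  invFun g := ⟨g.1.toEquiv, loc_of_mem g.2, loc_of_mem (Subgroup.inv_mem _ g.2)⟩
  left_inv g := rfl
  right_inv g := rfl
  map_mul' g h := rfl

open Pool.Agent.helper66.FJT in
theorem aux {P : ∀ (G : Type) [Group G], Prop} (hP : FJClosed P)
    [CompactSpace X] [T2Space X] [TotallyDisconnectedSpace X] (T : X ≃ₜ X) (x₀ : X)
    (h1 : InUniqueMinimalSet T x₀) (h2 : ∀ n : ℤ, n ≠ 0 → (T ^ n) x₀ ≠ x₀) :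
    P (fullGroup T) := by
  have hS : Sys T x₀ := ⟨h2, h1⟩
  exact hP.closed.iso (fullGroupEquiv hS.aper_all) (hS.FG_mem hP.closed)

open Pool.Agent.helper66.FJT in
theorem periodic_finite [T2Space X] (T : X ≃ₜ X) (hT : IsMinimalHomeo T) {x : X} {n : ℤ}
    (hn : n ≠ 0) (hx : (T ^ n) x = x) : Finite X := by
  set K : Set X := Set.range (fun k : ℤ => (T ^ k) x) with hK
  have hper : ∀ m : ℤ, (T ^ (n * m)) x = x := by
    intro m
    induction m using Int.induction_on with
    | zero => simp
    | succ m ih => rw [mul_add, mul_one, pw_add, hx, ih]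
    | pred m ih =>
      rw [mul_sub, mul_one, sub_eq_add_neg, pw_add]
      have : (T ^ (-n)) x = x := ((pw_eq_iff T n x x).1 hx).symm
      rw [this, ih]
  have hfin : K.Finite := by
    refine ((Set.finite_Icc (0 : ℤ) |n|).image (fun k : ℤ => (T ^ k) x)).subset ?_
    rintro _ ⟨k, rfl⟩
    refine ⟨k % n, ⟨Int.emod_nonneg k hn, (Int.emod_lt_abs k hn).le⟩, ?_⟩
    change (T ^ (k % n)) x = (T ^ k) x
    conv_rhs => rw [← Int.emod_add_mul_ediv k n, pw_add, hper]
  have hinv : T '' K = K := by
    ext y
    constructor
    · rintro ⟨_, ⟨k, rfl⟩, rfl⟩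
      refine ⟨1 + k, ?_⟩
      change (T ^ (1 + k)) x = _
      rw [pw_add, pw_one]
    · rintro ⟨k, rfl⟩
      refine ⟨(T ^ (k - 1)) x, ⟨k - 1, rfl⟩, ?_⟩
      rw [← pw_one T ((T ^ (k - 1)) x), ← pw_add]
      simp
  rcases hT K hfin.isClosed hinv with h | h
  · exact absurd h (Set.Nonempty.ne_empty ⟨x, 0, by simp⟩)
  · rw [h] at hfin
    exact Set.finite_univ_iff.1 hfin

/-- Let `P` be a class of groups with the inheritance properties `FJClosed` of the class of
Farrell-Jones groups, and let `X` be a totally disconnected compact Hausdorff space.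
(1) The topological full group of every minimal homeomorphism of `X` is in `P`.
(2) If `T` is a homeomorphism of `X` with exactly one minimal closed invariant set, and this set is
infinite, then the topological full group of `T` is in `P`. -/
theorem result (P : ∀ (G : Type) [Group G], Prop) (hP : FJClosed P)
    (X : Type) [TopologicalSpace X] [CompactSpace X] [T2Space X] [TotallyDisconnectedSpace X]
    (T : X ≃ₜ X) :
    (IsMinimalHomeo T → P (fullGroup T)) ∧
      (∀ x₀ : X, InUniqueMinimalSet T x₀ → (∀ n : ℤ, n ≠ 0 → (T ^ n) x₀ ≠ x₀) →
        P (fullGroup T)) := by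
  refine ⟨fun hT => ?_, fun x₀ h1 h2 => aux hP T x₀ h1 h2⟩
  by_cases hfin : Finite X
  · have hf : Finite (X ≃ₜ X) := Finite.of_injective (fun g : X ≃ₜ X => (g : X → X))
      (fun g h e => Homeomorph.ext (congrFun e))
    exact hP.closed.finite _
  · have hne : Nonempty X := by
      by_contra h
      rw [not_nonempty_iff] at h
      exact hfin inferInstance
    obtain ⟨x₀⟩ := hne
    refine aux hP T x₀ ?_ ?_
    · intro K hK hKne hinv
      rcases hT K hK hinv with h | h
      · exact absurd h hKne.ne_empty
      · rw [h]; trivial
    · intro n hn hx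
      exact hfin (periodic_finite T hT hn hx)

end Pool.Agent.Results.MP_490288_al.TopologicalFullGroups
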